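import Mathlib

/-!
MP_00e23e_nt, project NL (all classes, no lock; note 5005), chapter S: the abstract core of the second Cauchy inequality (helper2).
Pure finite combinatorics. I is a finite set of indices p = (h, r, s1, s2) with the same ρ; J a box of points n; q p the free
part of r; lab k p the ratio of the two classes modulo (ρ g k); near = the pairs without saving.
-/

namespace Pool.Agent.Lib.NL

open Finset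

/-- the index p = (h, r, s1, s2) -/
abbrev Ip : Type := ℤ × ℕ × ℕ × ℕ

/-- the number of the indices with k ∣ q p and label l modulo k -/
def mu (I : Finset Ip) (q : Ip → ℕ) (lab : ℕ → Ip → ℕ) (k l : ℕ) : ℕ := (I.filter (fun p => k ∣ q p ∧ lab k p = l)).card

/-- the sum of a pair -/
noncomputable def Pr (J : Finset (ℕ × ℕ)) (F : Ip → ℕ × ℕ → ℂ) (p p' : Ip) : ℝ :=
  ‖∑ n ∈ J, F p n * (starRingEnd ℂ) (F p' n)‖

open Classical in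
/-- the data of the abstract second Cauchy inequality -/
structure Cor (I : Finset Ip) (J : Finset (ℕ × ℕ)) (F : Ip → ℕ × ℕ → ℂ) (q : Ip → ℕ) (lab : ℕ → Ip → ℕ)
    (near : Ip → Ip → Prop) (K0 K1 Nn T D ε Qm : ℝ) : Prop where
  c0 : 0 ≤ K0 ∧ 0 ≤ K1 ∧ 0 ≤ Nn ∧ 1 ≤ T ∧ 0 ≤ D ∧ 0 < ε
  hq : ∀ p ∈ I, 1 ≤ q p ∧ (q p : ℝ) ≤ Qm ∧ ((q p).divisors.card : ℝ) ≤ T
  hJ : ∀ k l : ℕ, 1 ≤ k → ∃ J' : Finset (ℕ × ℕ), (J'.card : ℝ) ≤ K0 / k ∧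
    ∀ p ∈ I, k ∣ q p → lab k p = l → ∀ n ∈ J, F p n ≠ 0 → n ∈ J'
  hK : ((I.image (lab 1)).card : ℝ) ≤ K1
  hN : ∀ p ∈ I, ((I.filter (fun p' => near p p')).card : ℝ) ≤ Nn
  hl : ∀ p ∈ I, ∀ p' ∈ I, Pr J F p p' ≠ 0 → ∀ k : ℕ, k ∣ q p → k ∣ q p' → lab k p = lab k p'
  hD : ∀ p ∈ I, ∀ p' ∈ I, Pr J F p p' ≤ D * (Nat.gcd (q p) (q p') : ℝ)
  hF : ∀ p ∈ I, ∀ p' ∈ I, ¬ near p p' → Pr J F p p' ≤ D * ε * (Nat.gcd (q p) (q p') : ℝ)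

/-- The abstract second Cauchy inequality. Light p (k mu(k) ≤ Y = 2 Qm Nn/ε for all k ∣ q p): key = lab 1. Heavy p: key =
(k, lab k p) with the k ∣ q p for which k mu(k) is maximal. -/
def SabStmt : Prop := ∀ (I : Finset Ip) (J : Finset (ℕ × ℕ)) (F : Ip → ℕ × ℕ → ℂ) (q : Ip → ℕ) (lab : ℕ → Ip → ℕ)
    (near : Ip → Ip → Prop) (K0 K1 Nn T D ε Qm : ℝ) (γ : Ip → ℂ) (ω : ℕ × ℕ → ℂ),
  Cor I J F q lab near K0 K1 Nn T D ε Qm → (∀ p, ‖γ p‖ ≤ 1) → (∀ n, ‖ω n‖ ≤ 1) →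
  ‖∑ p ∈ I, γ p * ∑ n ∈ J, ω n * F p n‖ ^ 2 ≤
    4 * K0 * K1 * I.card * D * T * Qm * Nn / ε + 4 * K0 * D * ε * T ^ 2 * (I.card : ℝ) ^ 2

end Pool.Agent.Lib.NL
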