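import Pool.Agent.Lib.NL.Cor

/-!
MP_00e23e_nt, project NL, chapter S: the abstract second Cauchy inequality (helper2).
-/

namespace Pool.Agent.Lib.NL

open Finset

private theorem Sab_cs (I : Finset Ip) (J J' : Finset (ℕ × ℕ)) (F : Ip → ℕ × ℕ → ℂ) (γ : Ip → ℂ) (ω : ℕ × ℕ → ℂ)
    (hγ : ∀ p, ‖γ p‖ ≤ 1) (hω : ∀ n, ‖ω n‖ ≤ 1) (hJ : ∀ p ∈ I, ∀ n ∈ J, F p n ≠ 0 → n ∈ J') :
    ‖∑ p ∈ I, γ p * ∑ n ∈ J, ω n * F p n‖ ^ 2 ≤ (J'.card : ℝ) * ∑ p ∈ I, ∑ p' ∈ I, Pr J F p p' := by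
  classical
  set G : ℕ × ℕ → ℂ := fun n => ∑ p ∈ I, γ p * F p n with hG
  have e1 : ∑ p ∈ I, γ p * ∑ n ∈ J, ω n * F p n = ∑ n ∈ J, ω n * G n := by
    simp only [hG, mul_sum]
    rw [sum_comm]
    exact sum_congr rfl fun n _ => sum_congr rfl fun p _ => by ring
  have e2 : ∑ n ∈ J, ω n * G n = ∑ n ∈ J.filter (fun n => n ∈ J'), ω n * G n := by
    rw [sum_filter]
    refine sum_congr rfl fun n hn => ?_
    by_cases h : n ∈ J'
    · rw [if_pos h]
    · rw [if_neg h]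
      have h0 : G n = 0 := by
        simp only [hG]
        refine sum_eq_zero fun p hp => ?_
        by_cases h2 : F p n = 0
        · rw [h2, mul_zero]
        · exact absurd (hJ p hp n hn h2) h
      rw [h0, mul_zero]
  have e3 : ‖∑ n ∈ J.filter (fun n => n ∈ J'), ω n * G n‖ ≤ ∑ n ∈ J.filter (fun n => n ∈ J'), ‖G n‖ := by
    refine (norm_sum_le _ _).trans (sum_le_sum fun n _ => ?_)
    rw [norm_mul]
    exact (mul_le_mul_of_nonneg_right (hω n) (norm_nonneg _)).trans (by rw [one_mul])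
  have e4 : (∑ n ∈ J.filter (fun n => n ∈ J'), ‖G n‖) ^ 2 ≤
      ((J.filter (fun n => n ∈ J')).card : ℝ) * ∑ n ∈ J.filter (fun n => n ∈ J'), ‖G n‖ ^ 2 :=
    sq_sum_le_card_mul_sum_sq
  have e5 : ((J.filter (fun n => n ∈ J')).card : ℝ) ≤ (J'.card : ℝ) := by
    exact_mod_cast card_le_card fun n hn => (mem_filter.1 hn).2
  have e6 : ∑ n ∈ J.filter (fun n => n ∈ J'), ‖G n‖ ^ 2 ≤ ∑ n ∈ J, ‖G n‖ ^ 2 :=
    sum_le_sum_of_subset_of_nonneg (filter_subset _ _) fun n _ _ => sq_nonneg _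
  have e7 : ∑ n ∈ J, ‖G n‖ ^ 2 ≤ ∑ p ∈ I, ∑ p' ∈ I, Pr J F p p' := by
    have h1 : ((∑ n ∈ J, ‖G n‖ ^ 2 : ℝ) : ℂ) =
        ∑ p ∈ I, ∑ p' ∈ I, γ p * (starRingEnd ℂ) (γ p') * ∑ n ∈ J, F p n * (starRingEnd ℂ) (F p' n) := by
      have h2 : ∀ n, ((‖G n‖ ^ 2 : ℝ) : ℂ) = ∑ p ∈ I, ∑ p' ∈ I,
          γ p * (starRingEnd ℂ) (γ p') * (F p n * (starRingEnd ℂ) (F p' n)) := by
        intro n
        have h3 : ((‖G n‖ ^ 2 : ℝ) : ℂ) = G n * (starRingEnd ℂ) (G n) := by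
          rw [Complex.mul_conj, Complex.normSq_eq_norm_sq]
        rw [h3, hG]
        simp only [map_sum, map_mul, sum_mul_sum]
        exact sum_congr rfl fun p _ => sum_congr rfl fun p' _ => by ring
      rw [Complex.ofReal_sum]
      rw [sum_congr rfl fun n _ => h2 n]
      rw [sum_comm]
      refine sum_congr rfl fun p _ => ?_
      rw [sum_comm]
      refine sum_congr rfl fun p' _ => ?_
      rw [mul_sum]
    have h4 : ‖((∑ n ∈ J, ‖G n‖ ^ 2 : ℝ) : ℂ)‖ = ∑ n ∈ J, ‖G n‖ ^ 2 := by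
      rw [Complex.norm_real, Real.norm_eq_abs, abs_of_nonneg (sum_nonneg fun n _ => sq_nonneg _)]
    rw [← h4, h1]
    refine (norm_sum_le _ _).trans (sum_le_sum fun p _ => ?_)
    refine (norm_sum_le _ _).trans (sum_le_sum fun p' _ => ?_)
    rw [norm_mul, norm_mul, RCLike.norm_conj]
    have h5 : ‖γ p‖ * ‖γ p'‖ ≤ 1 := by
      calc ‖γ p‖ * ‖γ p'‖ ≤ 1 * 1 := mul_le_mul (hγ p) (hγ p') (norm_nonneg _) zero_le_one
        _ = 1 := one_mul _
    exact (mul_le_mul_of_nonneg_right h5 (norm_nonneg _)).trans (by rw [one_mul]; exact le_rfl)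
  have e8 : (0 : ℝ) ≤ ∑ n ∈ J.filter (fun n => n ∈ J'), ‖G n‖ ^ 2 := sum_nonneg fun n _ => sq_nonneg _
  rw [e1, e2]
  calc ‖∑ n ∈ J.filter (fun n => n ∈ J'), ω n * G n‖ ^ 2
      ≤ (∑ n ∈ J.filter (fun n => n ∈ J'), ‖G n‖) ^ 2 := pow_le_pow_left₀ (norm_nonneg _) e3 2
    _ ≤ ((J.filter (fun n => n ∈ J')).card : ℝ) * ∑ n ∈ J.filter (fun n => n ∈ J'), ‖G n‖ ^ 2 := e4
    _ ≤ (J'.card : ℝ) * ∑ n ∈ J.filter (fun n => n ∈ J'), ‖G n‖ ^ 2 := mul_le_mul_of_nonneg_right e5 e8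
    _ ≤ (J'.card : ℝ) * ∑ p ∈ I, ∑ p' ∈ I, Pr J F p p' :=
        mul_le_mul_of_nonneg_left (e6.trans e7) (Nat.cast_nonneg _)

private theorem Sab_pr (J : Finset (ℕ × ℕ)) (F : Ip → ℕ × ℕ → ℂ) (p p' : Ip) : 0 ≤ Pr J F p p' := norm_nonneg _

open Classical in
private theorem Sab_gc {I : Finset Ip} {J : Finset (ℕ × ℕ)} {F : Ip → ℕ × ℕ → ℂ} {q : Ip → ℕ} {lab : ℕ → Ip → ℕ}
    {near : Ip → Ip → Prop} {K0 K1 Nn T D ε Qm : ℝ} (hC : Cor I J F q lab near K0 K1 Nn T D ε Qm) (p : Ip) (hp : p ∈ I)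
    (M : ℝ) (hM0 : 0 ≤ M) (hM : ∀ k : ℕ, k ∣ q p → (k : ℝ) * mu I q lab k (lab k p) ≤ M) :
    ∑ p' ∈ I, (if Pr J F p p' ≠ 0 then (Nat.gcd (q p) (q p') : ℝ) else 0) ≤ T * M := by
  have hq := hC.hq p hp
  have h1 : ∀ p' ∈ I, (if Pr J F p p' ≠ 0 then (Nat.gcd (q p) (q p') : ℝ) else 0) ≤
      ∑ k ∈ (q p).divisors, (if k ∣ q p' ∧ lab k p' = lab k p then (k : ℝ) else 0) := by
    intro p' hp'
    have h0 : ∀ k ∈ (q p).divisors, (0 : ℝ) ≤ (if k ∣ q p' ∧ lab k p' = lab k p then (k : ℝ) else 0) := by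
      intro k _
      split_ifs
      · exact Nat.cast_nonneg _
      · exact le_rfl
    by_cases h : Pr J F p p' ≠ 0
    · rw [if_pos h]
      have hg : Nat.gcd (q p) (q p') ∈ (q p).divisors :=
        Nat.mem_divisors.2 ⟨Nat.gcd_dvd_left _ _, by omega⟩
      refine le_trans ?_ (single_le_sum h0 hg)
      rw [if_pos ⟨Nat.gcd_dvd_right _ _, (hC.hl p hp p' hp' h _ (Nat.gcd_dvd_left _ _) (Nat.gcd_dvd_right _ _)).symm⟩]
    · rw [if_neg h]
      exact sum_nonneg h0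
  refine (sum_le_sum h1).trans ?_
  rw [sum_comm]
  have h2 : ∀ k ∈ (q p).divisors, ∑ p' ∈ I, (if k ∣ q p' ∧ lab k p' = lab k p then (k : ℝ) else 0) ≤ M := by
    intro k hk
    rw [← sum_filter, sum_const, nsmul_eq_mul, mul_comm]
    exact hM k (Nat.dvd_of_mem_divisors hk)
  refine (sum_le_sum h2).trans ?_
  rw [sum_const, nsmul_eq_mul]
  exact mul_le_mul_of_nonneg_right hq.2.2 hM0

open Classical in
private theorem Sab_li {I : Finset Ip} {J : Finset (ℕ × ℕ)} {F : Ip → ℕ × ℕ → ℂ} {q : Ip → ℕ} {lab : ℕ → Ip → ℕ}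
    {near : Ip → Ip → Prop} {K0 K1 Nn T D ε Qm : ℝ} (hC : Cor I J F q lab near K0 K1 Nn T D ε Qm) (γ : Ip → ℂ)
    (ω : ℕ × ℕ → ℂ) (hγ : ∀ p, ‖γ p‖ ≤ 1) (hω : ∀ n, ‖ω n‖ ≤ 1) (I1 : Finset Ip) (hI : I1 ⊆ I) (Y : ℝ) (hY : 0 ≤ Y)
    (hM : ∀ p ∈ I1, ∀ k : ℕ, k ∣ q p → (k : ℝ) * mu I q lab k (lab k p) ≤ Y) :
    ‖∑ p ∈ I1, γ p * ∑ n ∈ J, ω n * F p n‖ ^ 2 ≤ K0 * K1 * I.card * D * T * Y := by
  obtain ⟨hK0, hK1, hNn, hT, hD, hε⟩ := hC.c0
  set f : Ip → ℂ := fun p => γ p * ∑ n ∈ J, ω n * F p n with hf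
  set L : Finset ℕ := I1.image (lab 1) with hL
  have e1 : ∑ p ∈ I1, f p = ∑ l ∈ L, ∑ p ∈ I1.filter (fun p => lab 1 p = l), f p :=
    (sum_fiberwise_of_maps_to (fun p hp => mem_image_of_mem (lab 1) hp) f).symm
  have hLc : (L.card : ℝ) ≤ K1 := by
    refine le_trans ?_ hC.hK
    exact_mod_cast card_le_card (image_subset_image hI)
  have e2 : ∀ l ∈ L, ‖∑ p ∈ I1.filter (fun p => lab 1 p = l), f p‖ ^ 2 ≤
      K0 * D * T * Y * ((I1.filter (fun p => lab 1 p = l)).card : ℝ) := by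
    intro l _
    obtain ⟨J', hJ1, hJ2⟩ := hC.hJ 1 l le_rfl
    have h1 := Sab_cs (I1.filter (fun p => lab 1 p = l)) J J' F γ ω hγ hω (fun p hp n hn h => by
      have := mem_filter.1 hp
      exact hJ2 p (hI this.1) (one_dvd _) this.2 n hn h)
    have h2 : ∀ p ∈ I1.filter (fun p => lab 1 p = l), ∑ p' ∈ I1.filter (fun p => lab 1 p = l), Pr J F p p' ≤ D * (T * Y) := by
      intro p hp
      have hp1 : p ∈ I1 := (mem_filter.1 hp).1
      have hpI : p ∈ I := hI hp1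
      have h3 : ∑ p' ∈ I1.filter (fun p => lab 1 p = l), Pr J F p p' ≤ ∑ p' ∈ I, Pr J F p p' :=
        sum_le_sum_of_subset_of_nonneg ((filter_subset _ _).trans hI) fun p' _ _ => Sab_pr J F p p'
      have h4 : ∑ p' ∈ I, Pr J F p p' ≤ ∑ p' ∈ I, D * (if Pr J F p p' ≠ 0 then (Nat.gcd (q p) (q p') : ℝ) else 0) := by
        refine sum_le_sum fun p' hp' => ?_
        by_cases h : Pr J F p p' ≠ 0
        · rw [if_pos h]
          exact hC.hD p hpI p' hp'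
        · rw [if_neg h]
          have h5 : Pr J F p p' = 0 := not_not.1 h
          rw [h5, mul_zero]
      refine h3.trans (h4.trans ?_)
      rw [← mul_sum]
      exact mul_le_mul_of_nonneg_left (Sab_gc hC p hpI Y hY (hM p hp1)) hD
    have h6 : ∑ p ∈ I1.filter (fun p => lab 1 p = l), ∑ p' ∈ I1.filter (fun p => lab 1 p = l), Pr J F p p' ≤
        ((I1.filter (fun p => lab 1 p = l)).card : ℝ) * (D * (T * Y)) := by
      refine (sum_le_sum h2).trans ?_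
      rw [sum_const, nsmul_eq_mul]
    have h7 : (J'.card : ℝ) ≤ K0 := by
      have : K0 / ((1 : ℕ) : ℝ) = K0 := by rw [Nat.cast_one, div_one]
      rw [← this]
      exact hJ1
    have h8 : (0 : ℝ) ≤ ((I1.filter (fun p => lab 1 p = l)).card : ℝ) * (D * (T * Y)) := by
      have hT0 : (0 : ℝ) ≤ T := by linarith
      positivity
    calc ‖∑ p ∈ I1.filter (fun p => lab 1 p = l), f p‖ ^ 2
        ≤ (J'.card : ℝ) * ∑ p ∈ I1.filter (fun p => lab 1 p = l), ∑ p' ∈ I1.filter (fun p => lab 1 p = l), Pr J F p p' := h1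
      _ ≤ (J'.card : ℝ) * (((I1.filter (fun p => lab 1 p = l)).card : ℝ) * (D * (T * Y))) :=
          mul_le_mul_of_nonneg_left h6 (Nat.cast_nonneg _)
      _ ≤ K0 * (((I1.filter (fun p => lab 1 p = l)).card : ℝ) * (D * (T * Y))) := mul_le_mul_of_nonneg_right h7 h8
      _ = K0 * D * T * Y * ((I1.filter (fun p => lab 1 p = l)).card : ℝ) := by ring
  have e3 : ‖∑ p ∈ I1, f p‖ ^ 2 ≤ (L.card : ℝ) * ∑ l ∈ L, ‖∑ p ∈ I1.filter (fun p => lab 1 p = l), f p‖ ^ 2 := by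
    rw [e1]
    exact (pow_le_pow_left₀ (norm_nonneg _) (norm_sum_le _ _) 2).trans sq_sum_le_card_mul_sum_sq
  have e4 : ∑ l ∈ L, ((I1.filter (fun p => lab 1 p = l)).card : ℝ) = (I1.card : ℝ) := by
    rw [card_eq_sum_card_image (lab 1) I1]
    push_cast
    rfl
  have e5 : (I1.card : ℝ) ≤ I.card := by exact_mod_cast card_le_card hI
  have hT0 : (0 : ℝ) ≤ T := by linarith
  calc ‖∑ p ∈ I1, f p‖ ^ 2
      ≤ (L.card : ℝ) * ∑ l ∈ L, ‖∑ p ∈ I1.filter (fun p => lab 1 p = l), f p‖ ^ 2 := e3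
    _ ≤ (L.card : ℝ) * ∑ l ∈ L, K0 * D * T * Y * ((I1.filter (fun p => lab 1 p = l)).card : ℝ) :=
        mul_le_mul_of_nonneg_left (sum_le_sum e2) (Nat.cast_nonneg _)
    _ = (L.card : ℝ) * (K0 * D * T * Y * (I1.card : ℝ)) := by rw [← mul_sum, e4]
    _ ≤ K1 * (K0 * D * T * Y * (I1.card : ℝ)) := mul_le_mul_of_nonneg_right hLc (by positivity)
    _ ≤ K1 * (K0 * D * T * Y * (I.card : ℝ)) :=
        mul_le_mul_of_nonneg_left (mul_le_mul_of_nonneg_left e5 (by positivity)) hK1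
    _ = K0 * K1 * I.card * D * T * Y := by ring

open Classical in
private theorem Sab_he {I : Finset Ip} {J : Finset (ℕ × ℕ)} {F : Ip → ℕ × ℕ → ℂ} {q : Ip → ℕ} {lab : ℕ → Ip → ℕ}
    {near : Ip → Ip → Prop} {K0 K1 Nn T D ε Qm : ℝ} (hC : Cor I J F q lab near K0 K1 Nn T D ε Qm) (γ : Ip → ℂ)
    (ω : ℕ × ℕ → ℂ) (hγ : ∀ p, ‖γ p‖ ≤ 1) (hω : ∀ n, ‖ω n‖ ≤ 1) (I1 : Finset Ip) (hI : I1 ⊆ I)
    (hM : ∀ p ∈ I1, ∃ k : ℕ, k ∣ q p ∧ 2 * Qm * Nn < ε * ((k : ℝ) * mu I q lab k (lab k p))) :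
    ‖∑ p ∈ I1, γ p * ∑ n ∈ J, ω n * F p n‖ ^ 2 ≤ 2 * K0 * D * ε * T ^ 2 * (I.card : ℝ) ^ 2 := by
  obtain ⟨hK0, hK1, hNn, hT, hD, hε⟩ := hC.c0
  have hT0 : (0 : ℝ) ≤ T := by linarith
  set f : Ip → ℂ := fun p => γ p * ∑ n ∈ J, ω n * F p n with hf
  -- the divisor with maximal k mu(k)
  have hk : ∀ p : Ip, ∃ k : ℕ, p ∈ I1 → k ∈ (q p).divisors ∧
      ∀ k' ∈ (q p).divisors, (k' : ℝ) * mu I q lab k' (lab k' p) ≤ (k : ℝ) * mu I q lab k (lab k p) := by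
    intro p
    by_cases hp : p ∈ I1
    · have hne : (q p).divisors.Nonempty := ⟨1, Nat.one_mem_divisors.2 (by have := (hC.hq p (hI hp)).1; omega)⟩
      obtain ⟨k, hk1, hk2⟩ := exists_max_image (q p).divisors (fun k => (k : ℝ) * mu I q lab k (lab k p)) hne
      exact ⟨k, fun _ => ⟨hk1, hk2⟩⟩
    · exact ⟨0, fun h => absurd h hp⟩
  choose κ hκ using hk
  set key : Ip → ℕ × ℕ := fun p => (κ p, lab (κ p) p) with hkey
  set L : Finset (ℕ × ℕ) := I1.image key with hL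
  have e1 : ∑ p ∈ I1, f p = ∑ l ∈ L, ∑ p ∈ I1.filter (fun p => key p = l), f p :=
    (sum_fiberwise_of_maps_to (fun p hp => mem_image_of_mem key hp) f).symm
  have e2 : ∀ l ∈ L, ‖∑ p ∈ I1.filter (fun p => key p = l), f p‖ ^ 2 ≤
      (2 * K0 * D * ε * T * ((I1.filter (fun p => key p = l)).card : ℝ)) * (mu I q lab l.1 l.2 : ℝ) := by
    intro l hl
    obtain ⟨p0, hp0, hp0l⟩ := mem_image.1 hl
    have hk0 := (hκ p0 hp0).1
    have hk1 : 1 ≤ l.1 := by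
      rw [← hp0l]
      exact Nat.pos_of_mem_divisors hk0
    have hl1 : (0 : ℝ) < (l.1 : ℝ) := by exact_mod_cast hk1
    obtain ⟨J', hJ1, hJ2⟩ := hC.hJ l.1 l.2 hk1
    set G := I1.filter (fun p => key p = l) with hG
    have hGk : ∀ p ∈ G, p ∈ I1 ∧ κ p = l.1 ∧ lab l.1 p = l.2 := by
      intro p hp
      have h := mem_filter.1 hp
      have h1 : κ p = l.1 := congrArg Prod.fst h.2
      have h2 : lab (κ p) p = l.2 := congrArg Prod.snd h.2
      exact ⟨h.1, h1, by rw [← h1]; exact h2⟩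
    have h1 := Sab_cs G J J' F γ ω hγ hω (fun p hp n hn h => by
      obtain ⟨a1, a2, a3⟩ := hGk p hp
      refine hJ2 p (hI a1) ?_ a3 n hn h
      rw [← a2]
      exact Nat.dvd_of_mem_divisors (hκ p a1).1)
    have h2 : ∀ p ∈ G, ∑ p' ∈ G, Pr J F p p' ≤ 2 * D * ε * T * ((l.1 : ℝ) * mu I q lab l.1 l.2) := by
      intro p hp
      obtain ⟨a1, a2, a3⟩ := hGk p hp
      have hpI : p ∈ I := hI a1
      set M : ℝ := (l.1 : ℝ) * mu I q lab l.1 l.2 with hMd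
      have hM0 : 0 ≤ M := by positivity
      have hMx : ∀ k' : ℕ, k' ∣ q p → (k' : ℝ) * mu I q lab k' (lab k' p) ≤ M := by
        intro k' hk'
        have h := (hκ p a1).2 k' (Nat.mem_divisors.2 ⟨hk', by have := (hC.hq p hpI).1; omega⟩)
        rw [a2, a3] at h
        exact h
      have hbig : 2 * Qm * Nn < ε * M := by
        obtain ⟨k, hk1, hk2⟩ := hM p a1
        exact hk2.trans_le (mul_le_mul_of_nonneg_left (hMx k hk1) hε.le)
      have h3 : ∑ p' ∈ G, Pr J F p p' ≤ ∑ p' ∈ I, Pr J F p p' :=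
        sum_le_sum_of_subset_of_nonneg ((filter_subset _ _).trans hI) fun p' _ _ => Sab_pr J F p p'
      have h4 : ∑ p' ∈ I, Pr J F p p' ≤
          ∑ p' ∈ I, (D * ε * (if Pr J F p p' ≠ 0 then (Nat.gcd (q p) (q p') : ℝ) else 0) +
            (if near p p' then D * Qm else 0)) := by
        refine sum_le_sum fun p' hp' => ?_
        have hg : (Nat.gcd (q p) (q p') : ℝ) ≤ Qm := by
          refine le_trans ?_ (hC.hq p hpI).2.1
          exact_mod_cast Nat.le_of_dvd (hC.hq p hpI).1 (Nat.gcd_dvd_left _ _)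
        have hQ : 0 ≤ Qm := (Nat.cast_nonneg _).trans hg
        by_cases h : near p p'
        · rw [if_pos h]
          have h5 := hC.hD p hpI p' hp'
          have h6 : D * (Nat.gcd (q p) (q p') : ℝ) ≤ D * Qm := mul_le_mul_of_nonneg_left hg hD
          have h7 : (0 : ℝ) ≤ D * ε * (if Pr J F p p' ≠ 0 then (Nat.gcd (q p) (q p') : ℝ) else 0) := by
            split_ifs <;> positivity
          linarith
        · rw [if_neg h, add_zero]
          by_cases h8 : Pr J F p p' ≠ 0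
          · rw [if_pos h8]
            exact hC.hF p hpI p' hp' h
          · rw [if_neg h8, mul_zero]
            exact (not_not.1 h8).le
      have h9 : ∑ p' ∈ I, (if near p p' then D * Qm else 0) ≤ D * Qm * Nn := by
        rw [← sum_filter, sum_const, nsmul_eq_mul, mul_comm]
        have hQ : 0 ≤ Qm := by
          have h := (hC.hq p hpI).2.1
          exact (Nat.cast_nonneg _).trans h
        exact mul_le_mul_of_nonneg_left (hC.hN p hpI) (by positivity)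
      have h10 := Sab_gc hC p hpI M hM0 hMx
      have h11 : D * Qm * Nn ≤ D * ε * (T * M) := by
        have h12 : Qm * Nn ≤ ε * M := by
          have hQ : 0 ≤ Qm := by
            have h := (hC.hq p hpI).2.1
            exact (Nat.cast_nonneg _).trans h
          have h13 : 0 ≤ Qm * Nn := mul_nonneg hQ hNn
          nlinarith
        have h13 : ε * M ≤ ε * (T * M) := by
          refine mul_le_mul_of_nonneg_left ?_ hε.le
          nlinarith
        calc D * Qm * Nn = D * (Qm * Nn) := by ring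
          _ ≤ D * (ε * (T * M)) := mul_le_mul_of_nonneg_left (h12.trans h13) hD
          _ = D * ε * (T * M) := by ring
      calc ∑ p' ∈ G, Pr J F p p' ≤ ∑ p' ∈ I, Pr J F p p' := h3
        _ ≤ _ := h4
        _ = D * ε * ∑ p' ∈ I, (if Pr J F p p' ≠ 0 then (Nat.gcd (q p) (q p') : ℝ) else 0) +
            ∑ p' ∈ I, (if near p p' then D * Qm else 0) := by rw [sum_add_distrib, mul_sum]
        _ ≤ D * ε * (T * M) + D * Qm * Nn := add_le_add (mul_le_mul_of_nonneg_left h10 (by positivity)) h9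
        _ ≤ D * ε * (T * M) + D * ε * (T * M) := by linarith
        _ = 2 * D * ε * T * M := by ring
    have h14 : ∑ p ∈ G, ∑ p' ∈ G, Pr J F p p' ≤ (G.card : ℝ) * (2 * D * ε * T * ((l.1 : ℝ) * mu I q lab l.1 l.2)) := by
      refine (sum_le_sum h2).trans ?_
      rw [sum_const, nsmul_eq_mul]
    calc ‖∑ p ∈ G, f p‖ ^ 2 ≤ (J'.card : ℝ) * ∑ p ∈ G, ∑ p' ∈ G, Pr J F p p' := h1
      _ ≤ (J'.card : ℝ) * ((G.card : ℝ) * (2 * D * ε * T * ((l.1 : ℝ) * mu I q lab l.1 l.2))) :=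
          mul_le_mul_of_nonneg_left h14 (Nat.cast_nonneg _)
      _ ≤ K0 / l.1 * ((G.card : ℝ) * (2 * D * ε * T * ((l.1 : ℝ) * mu I q lab l.1 l.2))) :=
          mul_le_mul_of_nonneg_right hJ1 (by positivity)
      _ = (2 * K0 * D * ε * T * (G.card : ℝ)) * (mu I q lab l.1 l.2 : ℝ) := by
          field_simp
  -- the number of pairs (key, p')
  have e3 : ∑ l ∈ L, (mu I q lab l.1 l.2 : ℝ) ≤ T * I.card := by
    have h1 : ∀ l ∈ L, (mu I q lab l.1 l.2 : ℝ) = ∑ p ∈ I, (if l.1 ∣ q p ∧ lab l.1 p = l.2 then (1 : ℝ) else 0) := by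
      intro l _
      unfold mu
      rw [← sum_filter, sum_const, nsmul_eq_mul, mul_one]
    rw [sum_congr rfl h1, sum_comm]
    have h2 : ∀ p ∈ I, ∑ l ∈ L, (if l.1 ∣ q p ∧ lab l.1 p = l.2 then (1 : ℝ) else 0) ≤ T := by
      intro p hp
      rw [← sum_filter, sum_const, nsmul_eq_mul, mul_one]
      refine le_trans ?_ (hC.hq p hp).2.2
      have h3 : (L.filter (fun l => l.1 ∣ q p ∧ lab l.1 p = l.2)).card ≤ (q p).divisors.card := by
        refine card_le_card_of_injOn (fun l => l.1) ?_ ?_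
        · intro l hl
          have h := (mem_filter.1 hl).2
          exact Nat.mem_divisors.2 ⟨h.1, by have := (hC.hq p hp).1; omega⟩
        · intro l hl l' hl' hll
          have h := (mem_filter.1 hl).2.2
          have h' := (mem_filter.1 hl').2.2
          have h4 : l.1 = l'.1 := hll
          refine Prod.ext h4 ?_
          rw [← h, ← h', h4]
      exact_mod_cast h3
    refine (sum_le_sum h2).trans ?_
    rw [sum_const, nsmul_eq_mul, mul_comm]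
  have e4 : ∑ l ∈ L, ((I1.filter (fun p => key p = l)).card : ℝ) = (I1.card : ℝ) := by
    rw [card_eq_sum_card_image key I1]
    push_cast
    rfl
  have e5 : (I1.card : ℝ) ≤ I.card := by exact_mod_cast card_le_card hI
  have e6 : ‖∑ p ∈ I1, f p‖ ≤ ∑ l ∈ L, Real.sqrt (2 * K0 * D * ε * T * ((I1.filter (fun p => key p = l)).card : ℝ)) *
      Real.sqrt (mu I q lab l.1 l.2 : ℝ) := by
    rw [e1]
    refine (norm_sum_le _ _).trans (sum_le_sum fun l hl => ?_)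
    rw [← Real.sqrt_mul (by positivity)]
    exact Real.le_sqrt_of_sq_le (e2 l hl)
  have e7 : (∑ l ∈ L, Real.sqrt (2 * K0 * D * ε * T * ((I1.filter (fun p => key p = l)).card : ℝ)) *
      Real.sqrt (mu I q lab l.1 l.2 : ℝ)) ^ 2 ≤
      (∑ l ∈ L, 2 * K0 * D * ε * T * ((I1.filter (fun p => key p = l)).card : ℝ)) * ∑ l ∈ L, (mu I q lab l.1 l.2 : ℝ) := by
    refine (sum_mul_sq_le_sq_mul_sq _ _ _).trans (le_of_eq ?_)
    refine congrArg₂ (· * ·) (sum_congr rfl fun l _ => Real.sq_sqrt (by positivity)) (sum_congr rfl fun l _ => Real.sq_sqrt (by positivity))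
  calc ‖∑ p ∈ I1, f p‖ ^ 2 ≤ _ := pow_le_pow_left₀ (norm_nonneg _) e6 2
    _ ≤ _ := e7
    _ = (2 * K0 * D * ε * T * (I1.card : ℝ)) * ∑ l ∈ L, (mu I q lab l.1 l.2 : ℝ) := by rw [← mul_sum, e4]
    _ ≤ (2 * K0 * D * ε * T * (I.card : ℝ)) * (T * I.card) := by
        refine mul_le_mul (mul_le_mul_of_nonneg_left e5 (by positivity)) e3 (sum_nonneg fun l _ => Nat.cast_nonneg _) (by positivity)
    _ = 2 * K0 * D * ε * T ^ 2 * (I.card : ℝ) ^ 2 := by ring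

open Classical in
/-- The abstract second Cauchy inequality. -/
theorem tSab : SabStmt := by
  intro I J F q lab near K0 K1 Nn T D ε Qm γ ω hC hγ hω
  obtain ⟨hK0, hK1, hNn, hT, hD, hε⟩ := hC.c0
  have hT0 : (0 : ℝ) ≤ T := by linarith
  rcases I.eq_empty_or_nonempty with hIe | ⟨pn, hpn⟩
  · subst hIe
    simp
  have hQ : 0 ≤ Qm := (Nat.cast_nonneg _).trans (hC.hq pn hpn).2.1
  set hv : Ip → Prop := fun p => ∃ k : ℕ, k ∣ q p ∧ 2 * Qm * Nn < ε * ((k : ℝ) * mu I q lab k (lab k p)) with hhv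
  set I1 := I.filter (fun p => ¬ hv p) with hI1
  set I2 := I.filter (fun p => hv p) with hI2
  have h1 := Sab_li hC γ ω hγ hω I1 (filter_subset _ _) (2 * Qm * Nn / ε) (by positivity) (fun p hp k hk => by
    have h := (mem_filter.1 hp).2
    have h2 : ¬ (2 * Qm * Nn < ε * ((k : ℝ) * mu I q lab k (lab k p))) := fun h3 => h ⟨k, hk, h3⟩
    rw [le_div_iff₀ hε]
    linarith [not_lt.1 h2])
  have h2 := Sab_he hC γ ω hγ hω I2 (filter_subset _ _) (fun p hp => (mem_filter.1 hp).2)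
  have h3 : ∑ p ∈ I, γ p * ∑ n ∈ J, ω n * F p n =
      ∑ p ∈ I2, γ p * ∑ n ∈ J, ω n * F p n + ∑ p ∈ I1, γ p * ∑ n ∈ J, ω n * F p n :=
    (sum_filter_add_sum_filter_not I (fun p => hv p) _).symm
  rw [h3]
  set A := ∑ p ∈ I2, γ p * ∑ n ∈ J, ω n * F p n with hA
  set B := ∑ p ∈ I1, γ p * ∑ n ∈ J, ω n * F p n with hB
  have h4 : ‖A + B‖ ^ 2 ≤ 2 * ‖A‖ ^ 2 + 2 * ‖B‖ ^ 2 := by
    have h5 := norm_add_le A B
    have h6 := norm_nonneg (A + B)
    nlinarith [sq_nonneg (‖A‖ - ‖B‖), norm_nonneg A, norm_nonneg B]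
  have h7 : K0 * K1 * I.card * D * T * (2 * Qm * Nn / ε) = 2 * K0 * K1 * I.card * D * T * Qm * Nn / ε := by ring
  rw [h7] at h1
  have h8 : 4 * K0 * K1 * I.card * D * T * Qm * Nn / ε = 2 * (2 * K0 * K1 * I.card * D * T * Qm * Nn / ε) := by ring
  rw [h8]
  linarith

end Pool.Agent.Lib.NL
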